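import Pool.Agent.H101Z.Weil.Concrete

set_option autoImplicit false
set_option linter.unusedSectionVars false

namespace Pool.Agent.H101Z.Weil

open Module Polynomial
open scoped Pointwise

variable {F : Type} [Field F]

/-- coefficientwise action on rational functions -/
noncomputable def twist (ρ : F →+* F) : RatFunc F →+* RatFunc F :=
  IsFractionRing.lift (A := F[X]) (g := (algebraMap F[X] (RatFunc F)).comp (mapRingHom ρ))
    ((IsFractionRing.injective F[X] (RatFunc F)).comp (map_injective ρ ρ.injective))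

theorem twist_alg (ρ : F →+* F) (a : F[X]) :
    twist ρ (algebraMap F[X] (RatFunc F) a) = algebraMap F[X] (RatFunc F) (a.map ρ) :=
  IsFractionRing.lift_algebraMap _ _

theorem twist_X (ρ : F →+* F) : twist ρ RatFunc.X = RatFunc.X := by
  rw [← RatFunc.algebraMap_X, twist_alg, map_X]

theorem twist_C (ρ : F →+* F) (a : F) :
    twist ρ (algebraMap F (RatFunc F) a) = algebraMap F (RatFunc F) (ρ a) := by
  rw [IsScalarTower.algebraMap_apply F F[X] (RatFunc F), twist_alg,
    IsScalarTower.algebraMap_apply F F[X] (RatFunc F)]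
  simp

theorem twist_mem (ρ : F →+* F) (y : RatFunc F) (hy : y ∈ Sinf F) : twist ρ y ∈ Sinf F := by
  induction hy using Algebra.adjoin_induction with
  | mem y hy => rw [Set.mem_singleton_iff.mp hy, map_inv₀, twist_X]; exact inv_mem_Sinf F
  | algebraMap r => rw [twist_C]; exact Subalgebra.algebraMap_mem _ _
  | add y z _ _ hy hz => rw [map_add]; exact add_mem hy hz
  | mul y z _ _ hy hz => rw [map_mul]; exact mul_mem hy hz

theorem exists_lift' {K N N' : Type} [Field K] [Field N] [Field N'] [Algebra K N] (g : K[X])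
    [IsSplittingField K N g] (φ : K →+* N') (hs : (g.map φ).Splits) :
    ∃ θ : N →+* N', ∀ y, θ (algebraMap K N y) = φ y := by
  let := φ.toAlgebra
  exact ⟨(IsSplittingField.lift N g hs : N →ₐ[K] N'), fun y =>
    (IsSplittingField.lift N g hs : N →ₐ[K] N').commutes y⟩

theorem exists_lift {K N : Type} [Field K] [Field N] [Algebra K N] (g : K[X])
    [IsSplittingField K N g] (σ : K →+* K) (hσ : g.map σ = g) :
    ∃ θ : N →+* N, ∀ y, θ (algebraMap K N y) = algebraMap K N (σ y) :=
  exists_lift' g ((algebraMap K N).comp σ)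
    (by rw [← Polynomial.map_map, hσ]; exact IsSplittingField.splits N g)

section

variable {N : Type} [Field N] [Algebra (RatFunc F) N] [Algebra F[X] N] [Algebra F N]
  [IsScalarTower F[X] (RatFunc F) N] [IsScalarTower F (RatFunc F) N] [IsScalarTower F F[X] N]

theorem theta_alg (ρ : F →+* F) (θ : N →+* N)
    (h : ∀ y, θ (algebraMap (RatFunc F) N y) = algebraMap (RatFunc F) N (twist ρ y)) (a : F[X]) :
    θ (algebraMap F[X] N a) = algebraMap F[X] N (a.map ρ) := by
  rw [IsScalarTower.algebraMap_apply F[X] (RatFunc F) N, h, twist_alg,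
    ← IsScalarTower.algebraMap_apply]

/-- restriction to the coordinate ring -/
noncomputable def thetaB (ρ : F →+* F) (θ : N →+* N)
    (h : ∀ y, θ (algebraMap (RatFunc F) N y) = algebraMap (RatFunc F) N (twist ρ y)) :
    BB F N →+* BB F N :=
  (θ.comp (integralClosure F[X] N).val.toRingHom).codRestrict (integralClosure F[X] N) fun b =>
    IsIntegral.map_of_comp_eq (mapRingHom ρ) θ
      (RingHom.ext fun a => (theta_alg ρ θ h a).symm) b.2

theorem thetaB_coe (ρ : F →+* F) (θ : N →+* N)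
    (h : ∀ y, θ (algebraMap (RatFunc F) N y) = algebraMap (RatFunc F) N (twist ρ y)) (b : BB F N) :
    (thetaB ρ θ h b : N) = θ b := rfl

theorem thetaB_mem (ρ : F →+* F) (θ : N →+* N)
    (h : ∀ y, θ (algebraMap (RatFunc F) N y) = algebraMap (RatFunc F) N (twist ρ y)) (m : ℕ)
    (b : BB F N) (hb : b ∈ VV F N m) : thetaB ρ θ h b ∈ VV F N m := by
  rw [mem_VV] at *
  let φ : Sinf F →+* Sinf F :=
    ((twist ρ).comp (Sinf F).val.toRingHom).codRestrict (Sinf F) fun y => twist_mem ρ _ y.2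
  have := hb.map_of_comp_eq φ θ (RingHom.ext fun y => (h y).symm)
  rwa [map_mul, map_pow, tt, h, map_inv₀ (twist ρ), twist_X] at this

variable [FiniteDimensional (RatFunc F) N] [IsGalois (RatFunc F) N]

instance : SMulCommClass (N ≃ₐ[RatFunc F] N) F[X] N :=
  ⟨fun g a y => by
    show g (a • y) = a • g y
    rw [Algebra.smul_def, Algebra.smul_def, map_mul,
      IsScalarTower.algebraMap_apply F[X] (RatFunc F) N, AlgEquiv.commutes]⟩

theorem smul_alg (g : N ≃ₐ[RatFunc F] N) (a : F[X]) :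
    g • algebraMap F[X] (BB F N) a = algebraMap F[X] (BB F N) a := by
  apply Subtype.ext
  show g (algebraMap F[X] N a) = algebraMap F[X] N a
  rw [IsScalarTower.algebraMap_apply F[X] (RatFunc F) N, AlgEquiv.commutes]

theorem smul_mem_VV (g : N ≃ₐ[RatFunc F] N) (m : ℕ) (b : BB F N) (hb : b ∈ VV F N m) :
    g • b ∈ VV F N m := by
  rw [mem_VV] at *
  have := hb.map_of_comp_eq (RingHom.id (Sinf F)) (g : N →+* N)
    (RingHom.ext fun y : Sinf F => (g.commutes (y : RatFunc F)).symm)
  rw [map_mul, map_pow, tt, RingHom.coe_coe, AlgEquiv.commutes] at this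
  exact this

instance : Algebra.IsInvariant F[X] (BB F N) (N ≃ₐ[RatFunc F] N) := by
  refine ⟨fun b hb => ?_⟩
  obtain ⟨k, hk⟩ := (IsGalois.mem_range_algebraMap_iff_fixed (F := RatFunc F) (b : N)).mpr
    fun g => congrArg Subtype.val (hb g)
  have h1 : IsIntegral F[X] (b : N) := b.2
  rw [← hk, isIntegral_algebraMap_iff (algebraMap (RatFunc F) N).injective] at h1
  obtain ⟨a, rfl⟩ := IsIntegrallyClosed.algebraMap_eq_of_integral h1
  exact ⟨a, Subtype.ext (by rw [← hk, ← IsScalarTower.algebraMap_apply]; rfl)⟩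

theorem trans_BB (a : F) (P P' : Ideal (BB F N)) (hP : P.IsMaximal) (hP' : P'.IsMaximal)
    (h : algebraMap F[X] (BB F N) X - algebraMap F (BB F N) a ∈ P)
    (h' : algebraMap F[X] (BB F N) X - algebraMap F (BB F N) a ∈ P') :
    ∃ g : N ≃ₐ[RatFunc F] N, P' = g • P := by
  have key : ∀ Q : Ideal (BB F N), Q.IsMaximal →
      algebraMap F[X] (BB F N) X - algebraMap F (BB F N) a ∈ Q →
      Q.under F[X] = Ideal.span {(X - C a : F[X])} := by
    intro Q hQ h
    rw [sub_eq_alg] at h
    exact ((span_max F a).eq_of_le (Ideal.comap_ne_top _ hQ.ne_top)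
      ((Ideal.span_singleton_le_iff_mem _).mpr h)).symm
  exact Algebra.IsInvariant.exists_smul_of_under_eq F[X] (BB F N) _ P P'
    ((key P hP h).trans (key P' hP' h').symm)

theorem eval_mod (P : Ideal (BB F N)) (x₀ z₀ : F) (w : BB F N)
    (hx : algebraMap F[X] (BB F N) X - algebraMap F (BB F N) x₀ ∈ P)
    (hw : w - algebraMap F (BB F N) z₀ ∈ P) (H : F[X][X]) :
    aeval w H - algebraMap F (BB F N) (H.evalEval x₀ z₀) ∈ P := by
  rw [← Ideal.Quotient.eq] at *
  have h1 : (Ideal.Quotient.mk P).comp (algebraMap F[X] (BB F N)) =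
      ((Ideal.Quotient.mk P).comp (algebraMap F (BB F N))).comp (evalRingHom x₀) := by
    refine Polynomial.ringHom_ext (fun a => ?_) ?_
    · simp only [RingHom.comp_apply, coe_evalRingHom, eval_C]
      rw [IsScalarTower.algebraMap_apply F F[X] (BB F N)]
      rfl
    · simp only [RingHom.comp_apply, coe_evalRingHom, eval_X]
      exact hx
  rw [aeval_def, hom_eval₂, h1, hw, ← eval₂_evalRingHom]
  exact (hom_eval₂ H (evalRingHom x₀) ((Ideal.Quotient.mk P).comp (algebraMap F (BB F N))) z₀).symm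

theorem points_aux [IsAlgClosed F] (p : ℕ) [hp : Fact p.Prime] [CharP F p] (g : F[X][X])
    [IsSplittingField (RatFunc F) N (g.map (algebraMap F[X] (RatFunc F)))]
    (hsep : (g.map (algebraMap F[X] (RatFunc F))).Separable)
    (hfrob : ∀ ρ : F →+* F, g.map (mapRingHom ρ) = g) (p₁ : (RatFunc F)[X]) (hirr : Irreducible p₁)
    (hdvd : p₁ ∣ g.map (algebraMap F[X] (RatFunc F))) (hdeg : g.natDegree < 2 * p₁.natDegree)
    (D : F[X][X]) (hD : ¬ p₁ ∣ D.map (algebraMap F[X] (RatFunc F))) :
    ∃ m₀ : ℕ, ∀ m, m₀ ≤ m → ∃ x₀ y₀ : F, x₀ ^ p ^ m = x₀ ∧ y₀ ^ p ^ m = y₀ ∧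
      g.evalEval x₀ y₀ = 0 ∧ D.evalEval x₀ y₀ ≠ 0 := by
  classical
  set gK := g.map (algebraMap F[X] (RatFunc F)) with hgK
  have hgK0 : gK ≠ 0 := hsep.ne_zero
  have hg0 : g ≠ 0 := by rintro rfl; simp at hgK; exact hgK0 hgK
  have hcN : CharP N p := charP_of_injective_algebraMap (algebraMap F N).injective p
  have hcB : CharP (BB F N) p := charP_of_injective_algebraMap (algebraMap F (BB F N)).injective p
  have hsp : (gK.map (algebraMap (RatFunc F) N)).Splits := IsSplittingField.splits N gK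
  have hsp1 : (p₁.map (algebraMap (RatFunc F) N)).Splits :=
    hsp.of_dvd (Polynomial.map_ne_zero hgK0) (Polynomial.map_dvd _ hdvd)
  let O : Finset N := (p₁.aroots N).toFinset
  let Rg : Finset N := (gK.aroots N).toFinset
  have hO : ∀ z, z ∈ O ↔ aeval z p₁ = 0 := fun z => by
    simp [O, hirr.ne_zero]
  have hRg : ∀ z, z ∈ Rg ↔ aeval z g = 0 := fun z => by
    simp only [Rg, Multiset.mem_toFinset, mem_aroots, ne_eq, hgK0, not_false_eq_true, true_and]
    rw [hgK, aeval_map_algebraMap]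
  have hOR : O ⊆ Rg := fun z hz => by
    rw [hRg, ← aeval_map_algebraMap (RatFunc F)]
    exact aeval_eq_zero_of_dvd_aeval_eq_zero hdvd ((hO z).mp hz)
  have hOcard : O.card = p₁.natDegree := by
    rw [Multiset.toFinset_card_of_nodup (nodup_roots (hsep.of_dvd hdvd).map),
      ← hsp1.natDegree_eq_card_roots, natDegree_map]
  have hRcard : Rg.card ≤ g.natDegree := by
    refine (Multiset.toFinset_card_le _).trans ((card_roots' _).trans ?_)
    exact natDegree_map_le.trans natDegree_map_le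
  set A := g.leadingCoeff with hA
  have hA0 : A ≠ 0 := leadingCoeff_ne_zero.mpr hg0
  have hAN : algebraMap F[X] N A ≠ 0 := (map_ne_zero_iff _ (alg_inj F N)).mpr hA0
  let w : O → BB F N := fun z => ⟨A • z.1, isIntegral_leadingCoeff_smul g _ ((hRg _).mp (hOR z.2))⟩
  have hw : ∀ (z : O) (H : F[X][X]), ((aeval (w z) (H.scaleRoots A) : BB F N) : N) =
      algebraMap F[X] N A ^ H.natDegree * aeval z.1 H := by
    intro z H
    have h1 : ((aeval (w z) (H.scaleRoots A) : BB F N) : N) =
        aeval ((integralClosure F[X] N).val (w z)) (H.scaleRoots A) := (aeval_algHom_apply (integralClosure F[X] N).val _ _).symm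
    rw [h1]
    show aeval (A • z.1) _ = _
    rw [Algebra.smul_def, aeval_def, scaleRoots_eval₂_mul, aeval_def]
  let δ : O → BB F N := fun z => aeval (w z) (D.scaleRoots A) * algebraMap F[X] (BB F N) A
  have hδ0 : ∀ z, δ z ≠ 0 := by
    intro z
    refine mul_ne_zero (fun h => ?_) ((map_ne_zero_iff _ (alg_inj_B F N)).mpr hA0)
    have h1 := hw z D
    rw [h] at h1
    have h2 : aeval z.1 D = 0 := (mul_eq_zero.mp h1.symm).resolve_left (pow_ne_zero _ hAN)
    apply hD
    rw [← aeval_map_algebraMap (RatFunc F)] at h2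
    have h3 := minpoly.dvd (RatFunc F) z.1 h2
    have h4 := minpoly.Irreducible.eq_minpoly hirr ((hO _).mp z.2)
    rw [h4]
    exact (C_mul_dvd (leadingCoeff_ne_zero.mpr hirr.ne_zero)).mpr h3
  choose c hc using fun z => exists_mem_VV (δ z)
  obtain ⟨m₀, hm₀⟩ := (curve F N).lower p (N ≃ₐ[RatFunc F] N) (algebraMap F[X] (BB F N) X)
    smul_mem_VV
    (fun g a => by rw [IsScalarTower.algebraMap_apply F F[X] (BB F N), smul_alg])
    (fun g => smul_alg g X) (exists_max F N) (sub_ne F N) trans_BB (Finset.univ.sup c)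
  refine ⟨m₀, fun m hm => ?_⟩
  let ρ : F →+* F := (iterateFrobeniusEquiv F p m).symm
  have hρ : ∀ a, ρ a ^ p ^ m = a := fun a => by
    rw [← iterateFrobenius_def]
    exact (iterateFrobeniusEquiv F p m).apply_symm_apply a
  obtain ⟨θ, hθ⟩ := exists_lift (N := N) gK (twist ρ) (by
    rw [hgK, Polynomial.map_map]
    conv_rhs => rw [← hfrob ρ, Polynomial.map_map]
    congr 1
    exact RingHom.ext fun a => twist_alg ρ a)
  have hθA : θ (algebraMap F[X] N A) = algebraMap F[X] N A := by
    rw [theta_alg ρ θ hθ]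
    congr 1
    have := congrArg leadingCoeff (hfrob ρ)
    rwa [leadingCoeff_map_of_injective (map_injective ρ ρ.injective)] at this
  have hθR : ∀ z ∈ Rg, θ z ∈ Rg := by
    intro z hz
    rw [hRg] at *
    have h1 := congrArg θ hz
    rw [aeval_def, hom_eval₂, map_zero] at h1
    have h2 : θ.comp (algebraMap F[X] N) = (algebraMap F[X] N).comp (mapRingHom ρ) :=
      RingHom.ext fun a => theta_alg ρ θ hθ a
    rwa [h2, ← eval₂_map, hfrob] at h1
  obtain ⟨z', hz', hz''⟩ : ∃ z' ∈ O, θ z' ∈ O := by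
    by_contra hcon
    push Not at hcon
    have h1 : Disjoint O (O.image θ) := by
      rw [Finset.disjoint_left]
      intro y hy hy'
      obtain ⟨z, hz, rfl⟩ := Finset.mem_image.mp hy'
      exact hcon z hz hy
    have h2 : O ∪ O.image θ ⊆ Rg := by
      refine Finset.union_subset hOR fun y hy => ?_
      obtain ⟨z, hz, rfl⟩ := Finset.mem_image.mp hy
      exact hθR z (hOR hz)
    have h3 := Finset.card_le_card h2
    rw [Finset.card_union_of_disjoint h1, Finset.card_image_of_injective _ θ.injective] at h3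
    omega
  obtain ⟨g₀, hg₀⟩ : ∃ g₀ : N ≃ₐ[RatFunc F] N, g₀ (θ z') = z' := by
    apply IsConjRoot.exists_algEquiv
    rw [isConjRoot_def, ← minpoly.eq_of_irreducible hirr ((hO _).mp hz'),
      ← minpoly.eq_of_irreducible hirr ((hO _).mp hz'')]
  let z : O := ⟨θ z', hz''⟩
  obtain ⟨P, hP, hδP, hfix⟩ := hm₀ m hm (thetaB ρ θ hθ)
    (fun a b h => Subtype.ext (θ.injective (congrArg Subtype.val h))) (thetaB_mem ρ θ hθ)
    (Subtype.ext (by
      show θ (algebraMap F[X] N X) = algebraMap F[X] N X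
      rw [theta_alg ρ θ hθ, map_X]))
    (fun a => ⟨ρ a, Subtype.ext (by
      show θ (algebraMap F N a) = algebraMap F N (ρ a)
      rw [IsScalarTower.algebraMap_apply F (RatFunc F) N, hθ, twist_C,
        ← IsScalarTower.algebraMap_apply]), hρ a⟩)
    g₀ (δ z) (VV_mono (Finset.le_sup (f := c) (Finset.mem_univ z)) (hc z)) (hδ0 z)
  have hzero : ∀ a : F, algebraMap F (BB F N) a ∈ P → a = 0 := by
    intro a ha
    by_contra h
    exact hP.ne_top (Ideal.eq_top_of_isUnit_mem _ ha ((IsUnit.mk0 _ h).map _))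
  have hfixed : ∀ (b : BB F N) (a : F), thetaB ρ θ hθ (g₀ • b) = b →
      b - algebraMap F (BB F N) a ∈ P → a ^ p ^ m = a := by
    intro b a hb ha
    have h1 := hfix b
    rw [hb] at h1
    have h2 := P.pow_mem_of_mem ha (p ^ m) (pow_pos hp.out.pos m)
    rw [sub_pow_char_pow] at h2
    have h3 := P.sub_mem (P.sub_mem h1 h2) (P.neg_mem ha)
    rw [← sub_eq_zero]
    apply hzero
    rw [map_sub, map_pow]
    convert h3 using 1
    ring
  obtain ⟨x₀, hx₀⟩ := res_BB F N P hP (algebraMap F[X] (BB F N) X)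
  obtain ⟨z₀, hz₀⟩ := res_BB F N P hP (w z)
  have hx₀' : x₀ ^ p ^ m = x₀ := hfixed _ _ (by
    rw [smul_alg]
    apply Subtype.ext
    show θ (algebraMap F[X] N X) = algebraMap F[X] N X
    rw [theta_alg ρ θ hθ, map_X]) hx₀
  have hz₀' : z₀ ^ p ^ m = z₀ := hfixed _ _ (by
    apply Subtype.ext
    show θ (g₀ (A • θ z')) = A • θ z'
    rw [Algebra.smul_def, map_mul, hg₀, IsScalarTower.algebraMap_apply F[X] (RatFunc F) N,
      AlgEquiv.commutes, ← IsScalarTower.algebraMap_apply, map_mul, hθA]) hz₀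
  have hAP := eval_mod P x₀ z₀ (w z) hx₀ hz₀ (C A)
  rw [aeval_C, evalEval_C] at hAP
  have hA' : (A.eval x₀) ^ p ^ m = A.eval x₀ := hfixed _ _ (by
    rw [smul_alg]
    exact Subtype.ext hθA) hAP
  have hAx : A.eval x₀ ≠ 0 := by
    intro h
    rw [h, map_zero, sub_zero] at hAP
    exact hδP (P.mul_mem_left _ hAP)
  have hev : ∀ H : F[X][X], (H.scaleRoots A).evalEval x₀ z₀ =
      A.eval x₀ ^ H.natDegree * H.evalEval x₀ (z₀ / A.eval x₀) := by
    intro H
    have h1 := scaleRoots_eval₂_mul (p := H) (evalRingHom x₀) (z₀ / A.eval x₀) A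
    rw [coe_evalRingHom, mul_div_cancel₀ _ hAx, eval₂_evalRingHom] at h1
    exact h1
  refine ⟨x₀, z₀ / A.eval x₀, hx₀', by rw [div_pow, hz₀', hA'], ?_, ?_⟩
  · have h1 := eval_mod P x₀ z₀ (w z) hx₀ hz₀ (g.scaleRoots A)
    have h2 : aeval (w z) (g.scaleRoots A) = 0 := by
      apply Subtype.ext
      rw [hw, (hRg _).mp (hOR z.2), mul_zero]
      rfl
    rw [h2, zero_sub, neg_mem_iff] at h1
    have h3 := hzero _ h1
    rw [hev] at h3
    exact (mul_eq_zero.mp h3).resolve_left (pow_ne_zero _ hAx)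
  · intro h
    have h1 := eval_mod P x₀ z₀ (w z) hx₀ hz₀ (D.scaleRoots A)
    rw [hev, h, mul_zero, map_zero, sub_zero] at h1
    exact hδP (P.mul_mem_right _ h1)

end

/-- Existence of rational points over all large finite fields on a component of large degree. -/
theorem points [IsAlgClosed F] (p : ℕ) [hp : Fact p.Prime] [CharP F p] (g : F[X][X])
    (hsep : (g.map (algebraMap F[X] (RatFunc F))).Separable)
    (hfrob : ∀ ρ : F →+* F, g.map (mapRingHom ρ) = g) (p₁ : (RatFunc F)[X]) (hirr : Irreducible p₁)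
    (hdvd : p₁ ∣ g.map (algebraMap F[X] (RatFunc F))) (hdeg : g.natDegree < 2 * p₁.natDegree)
    (D : F[X][X]) (hD : ¬ p₁ ∣ D.map (algebraMap F[X] (RatFunc F))) :
    ∃ m₀ : ℕ, ∀ m, m₀ ≤ m → ∃ x₀ y₀ : F, x₀ ^ p ^ m = x₀ ∧ y₀ ^ p ^ m = y₀ ∧
      g.evalEval x₀ y₀ = 0 ∧ D.evalEval x₀ y₀ ≠ 0 := by
  have : IsGalois (RatFunc F) (g.map (algebraMap F[X] (RatFunc F))).SplittingField :=
    IsGalois.of_separable_splitting_field hsep
  have : IsScalarTower F F[X] (g.map (algebraMap F[X] (RatFunc F))).SplittingField :=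
    IsScalarTower.of_algebraMap_eq fun a => by
      rw [IsScalarTower.algebraMap_apply F[X] (RatFunc F), ← IsScalarTower.algebraMap_apply F F[X],
        ← IsScalarTower.algebraMap_apply]
  exact points_aux (N := (g.map (algebraMap F[X] (RatFunc F))).SplittingField) p g hsep hfrob p₁
    hirr hdvd hdeg D hD

end Pool.Agent.H101Z.Weil
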