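import Pool.Agent.H101Z.Weil.Lower

set_option autoImplicit false
set_option linter.unusedSectionVars false

namespace Pool.Agent.H101Z.Weil

open Module Polynomial
open scoped Pointwise

variable (F : Type) [Field F]

/-- the ring of polynomials in the inverse of the variable -/
noncomputable def Sinf : Subalgebra F (RatFunc F) := Algebra.adjoin F {(RatFunc.X : RatFunc F)⁻¹}

theorem inv_mem_Sinf : (RatFunc.X : RatFunc F)⁻¹ ∈ Sinf F := Algebra.subset_adjoin rfl

variable {F}

theorem mul_pow_mem_Sinf (a : F[X]) (k : ℕ) (h : a.natDegree ≤ k) :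
    algebraMap F[X] (RatFunc F) a * (RatFunc.X : RatFunc F)⁻¹ ^ k ∈ Sinf F := by
  rw [a.as_sum_range_C_mul_X_pow, map_sum, Finset.sum_mul]
  refine Subalgebra.sum_mem _ fun i hi => ?_
  have hi' : i ≤ k := by have := Finset.mem_range.mp hi; omega
  obtain ⟨j, rfl⟩ := Nat.exists_eq_add_of_le hi'
  have : algebraMap F[X] (RatFunc F) (C (a.coeff i) * X ^ i) * (RatFunc.X : RatFunc F)⁻¹ ^ (i + j) =
      algebraMap F (RatFunc F) (a.coeff i) * (RatFunc.X : RatFunc F)⁻¹ ^ j := by
    rw [map_mul, map_pow, RatFunc.algebraMap_X, RatFunc.algebraMap_C, RatFunc.algebraMap_eq_C,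
      pow_add, mul_assoc, ← mul_assoc (RatFunc.X ^ i), ← mul_pow,
      mul_inv_cancel₀ RatFunc.X_ne_zero, one_pow, one_mul]
  rw [this]
  exact Subalgebra.mul_mem _ (Subalgebra.algebraMap_mem _ _) (Subalgebra.pow_mem _ (inv_mem_Sinf F) _)

theorem natDegree_le_of_isIntegral (a : F[X]) (ha : a ≠ 0) (k : ℕ)
    (h : IsIntegral (Sinf F) (algebraMap F[X] (RatFunc F) a * (RatFunc.X : RatFunc F)⁻¹ ^ k)) :
    a.natDegree ≤ k := by
  classical
  let v := RatFunc.inftyValuation F
  have hle : ∀ y ∈ Sinf F, y ∈ v.integer := by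
    intro y hy
    induction hy using Algebra.adjoin_induction with
    | mem y hy =>
      rw [Set.mem_singleton_iff.mp hy, Valuation.mem_integer_iff, map_inv₀,
        RatFunc.inftyValuation.X, ← WithZero.exp_neg, ← WithZero.exp_zero, WithZero.exp_le_exp]
      norm_num
    | algebraMap r =>
      by_cases hr : r = 0
      · rw [hr, map_zero]; exact zero_mem _
      · rw [Valuation.mem_integer_iff, RatFunc.algebraMap_eq_C, RatFunc.inftyValuation.C F hr]
    | add y z _ _ hy hz => exact add_mem hy hz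
    | mul y z _ _ hy hz => exact mul_mem hy hz
  let φ : Sinf F →+* v.integer := (Sinf F).val.toRingHom.codRestrict v.integer fun y => hle _ y.2
  have h1 : IsIntegral v.integer
      (algebraMap F[X] (RatFunc F) a * (RatFunc.X : RatFunc F)⁻¹ ^ k) :=
    h.map_of_comp_eq φ (RingHom.id _) rfl
  have h2 := (Valuation.integer.integers v).mem_of_integral h1
  rw [Valuation.mem_integer_iff, map_mul, map_pow, map_inv₀, RatFunc.inftyValuation.X,
    RatFunc.inftyValuation_apply, RatFunc.inftyValuation.polynomial F ha, ← WithZero.exp_neg,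
    ← WithZero.exp_nsmul, ← WithZero.exp_add, ← WithZero.exp_zero, WithZero.exp_le_exp] at h2
  simp at h2
  omega

theorem card_le_natDegree (s : Multiset (Ideal F[X])) (hs : ∀ I ∈ s, I ≠ ⊤) :
    ∀ a : F[X], a ≠ 0 → a ∈ s.prod → s.card ≤ a.natDegree := by
  induction s using Multiset.induction_on with
  | empty => intro a _ _; simp
  | cons I s ih =>
    intro a ha h
    obtain ⟨g, hg⟩ := (IsPrincipalIdealRing.principal I).principal
    rw [Multiset.prod_cons, hg, Ideal.submodule_span_eq, Ideal.mem_span_singleton_mul] at h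
    obtain ⟨a', h1, rfl⟩ := h
    have hg0 : g ≠ 0 := left_ne_zero_of_mul ha
    have ha' : a' ≠ 0 := right_ne_zero_of_mul ha
    have h2 := ih (fun J hJ => hs J (Multiset.mem_cons_of_mem hJ)) a' ha' h1
    have h3 : g.natDegree ≠ 0 := by
      intro h0
      apply hs I (Multiset.mem_cons_self _ _)
      rw [hg, Ideal.submodule_span_eq, Ideal.span_singleton_eq_top]
      exact isUnit_iff_degree_eq_zero.mpr (by rw [degree_eq_natDegree hg0, h0]; rfl)
    rw [Multiset.card_cons, natDegree_mul hg0 ha']
    omega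

variable (F) (N : Type) [Field N] [Algebra (RatFunc F) N] [Algebra F[X] N] [Algebra F N]
  [IsScalarTower F[X] (RatFunc F) N] [IsScalarTower F (RatFunc F) N] [IsScalarTower F F[X] N]

/-- the coordinate ring -/
abbrev BB : Type := integralClosure F[X] N

/-- the inverse of the variable in `N` -/
noncomputable def tt : N := algebraMap (RatFunc F) N (RatFunc.X : RatFunc F)⁻¹

theorem isIntegral_of_mem {y : RatFunc F} (hy : y ∈ Sinf F) :
    IsIntegral (Sinf F) (algebraMap (RatFunc F) N y) :=
  isIntegral_algebraMap (R := Sinf F) (A := N) (x := ⟨y, hy⟩)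

/-- the filtration -/
noncomputable def VV (n : ℕ) : Submodule F (BB F N) where
  carrier := {b | IsIntegral (Sinf F) ((b : N) * tt F N ^ n)}
  add_mem' := by
    intro a b ha hb
    show IsIntegral (Sinf F) (((a : N) + b) * tt F N ^ n)
    rw [add_mul]
    exact ha.add hb
  zero_mem' := by
    show IsIntegral (Sinf F) ((0 : N) * tt F N ^ n)
    rw [zero_mul]; exact isIntegral_zero
  smul_mem' := by
    intro c b hb
    show IsIntegral (Sinf F) ((c • (b : N)) * tt F N ^ n)
    rw [Algebra.smul_def, mul_assoc, IsScalarTower.algebraMap_apply F (RatFunc F) N]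
    exact (isIntegral_of_mem F N (Subalgebra.algebraMap_mem _ _)).mul hb

variable {F N}

theorem mem_VV {n : ℕ} {b : BB F N} :
    b ∈ VV F N n ↔ IsIntegral (Sinf F) ((b : N) * tt F N ^ n) := Iff.rfl

theorem VV_mul {m n : ℕ} {a b : BB F N} (ha : a ∈ VV F N m) (hb : b ∈ VV F N n) :
    a * b ∈ VV F N (m + n) := by
  rw [mem_VV] at *
  have : ((a * b : BB F N) : N) * tt F N ^ (m + n) = (a * tt F N ^ m) * (b * tt F N ^ n) := by
    push_cast; ring
  rw [this]
  exact ha.mul hb

theorem VV_mono {m n : ℕ} (h : m ≤ n) {a : BB F N} (ha : a ∈ VV F N m) : a ∈ VV F N n := by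
  obtain ⟨k, rfl⟩ := Nat.exists_eq_add_of_le h
  rw [mem_VV] at *
  rw [pow_add, ← mul_assoc]
  exact ha.mul ((isIntegral_of_mem F N (inv_mem_Sinf F)).pow k)

theorem algebraMap_mem_VV (a : F[X]) : algebraMap F[X] (BB F N) a ∈ VV F N a.natDegree := by
  rw [mem_VV]
  have := isIntegral_of_mem F N (mul_pow_mem_Sinf a _ le_rfl)
  rwa [map_mul, map_pow, ← IsScalarTower.algebraMap_apply] at this

theorem exists_mem_VV (b : BB F N) : ∃ c, b ∈ VV F N c := by
  obtain ⟨P, hP, hPb⟩ := b.2
  let c := P.support.sup fun i => (P.coeff i).natDegree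
  have hc : ∀ i, (P.coeff i).natDegree ≤ c := by
    intro i
    by_cases hi : i ∈ P.support
    · exact Finset.le_sup (f := fun i => (P.coeff i).natDegree) hi
    · rw [notMem_support_iff.mp hi]; simp
  refine ⟨c, ?_⟩
  let P' := (P.map (algebraMap F[X] (RatFunc F))).scaleRoots ((RatFunc.X : RatFunc F)⁻¹ ^ c)
  have hm : (P.map (algebraMap F[X] (RatFunc F))).Monic := hP.map _
  have hP' : P'.Monic := (monic_scaleRoots_iff _).mpr hm
  have hl : P' ∈ lifts (algebraMap (Sinf F) (RatFunc F)) := by
    rw [lifts_iff_coeff_lifts]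
    intro i
    have : P'.coeff i ∈ Sinf F := by
      simp only [P', coeff_scaleRoots, coeff_map, hP.natDegree_map]
      rcases lt_trichotomy i P.natDegree with h | h | h
      · rw [← pow_mul]
        refine mul_pow_mem_Sinf _ _ ((hc i).trans ?_)
        exact Nat.le_mul_of_pos_right _ (by omega)
      · rw [h, hP.coeff_natDegree]; simp
      · rw [coeff_eq_zero_of_natDegree_lt h]; simp
    exact ⟨⟨_, this⟩, rfl⟩
  obtain ⟨Q, hQ, _, hQm⟩ := lifts_and_natDegree_eq_and_monic hl hP'
  refine ⟨Q, hQm, ?_⟩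
  rw [IsScalarTower.algebraMap_eq (Sinf F) (RatFunc F) N, ← eval₂_map, hQ, mul_comm]
  have h1 := scaleRoots_eval₂_mul (p := P.map (algebraMap F[X] (RatFunc F)))
    (algebraMap (RatFunc F) N) (b : N) ((RatFunc.X : RatFunc F)⁻¹ ^ c)
  rw [eval₂_map, ← IsScalarTower.algebraMap_eq, hPb, mul_zero, map_pow] at h1
  exact h1

variable [FiniteDimensional (RatFunc F) N] [Algebra.IsSeparable (RatFunc F) N]

variable (F N)

omit [Algebra F N] [IsScalarTower F (RatFunc F) N] [IsScalarTower F F[X] N]
  [FiniteDimensional (RatFunc F) N] [Algebra.IsSeparable (RatFunc F) N] in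
theorem alg_inj : Function.Injective (algebraMap F[X] N) := by
  rw [IsScalarTower.algebraMap_eq F[X] (RatFunc F) N]
  exact (algebraMap (RatFunc F) N).injective.comp (IsFractionRing.injective F[X] (RatFunc F))

instance instTF : IsTorsionFree F[X] N :=
  isTorsionFree_iff_algebraMap_injective.mpr (alg_inj F N)

instance instDed : IsDedekindDomain (BB F N) := integralClosure.isDedekindDomain F[X] (RatFunc F) N

instance instFin : Module.Finite F[X] (BB F N) := IsIntegralClosure.finite F[X] (RatFunc F) N _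

instance instTFB : IsTorsionFree F[X] (BB F N) := IsIntegralClosure.isTorsionFree F[X] N

instance instFree : Module.Free F[X] (BB F N) := IsIntegralClosure.module_free F[X] (RatFunc F) N _

theorem zeros_VV (n : ℕ) (b : BB F N) (hb : b ∈ VV F N n) (h0 : b ≠ 0)
    (s : Multiset (Ideal (BB F N))) (hs : ∀ P ∈ s, P.IsMaximal) (hbs : b ∈ s.prod) :
    s.card ≤ finrank (RatFunc F) N * n := by
  have h1 : Algebra.intNorm F[X] (BB F N) b ∈ Ideal.relNorm F[X] s.prod :=
    Ideal.intNorm_mem_spanNorm F[X] hbs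
  have h2 := Algebra.algebraMap_intNorm (K := RatFunc F) (L := N) (A := F[X]) b
  have h3 : Algebra.intNorm F[X] (BB F N) b ≠ 0 := by
    intro h
    rw [h, map_zero, eq_comm, Algebra.norm_eq_zero_iff] at h2
    exact h0 (Subtype.ext h2)
  rw [map_multiset_prod] at h1
  have h4 := card_le_natDegree _ (by
    intro I hI
    obtain ⟨P, hP, rfl⟩ := Multiset.mem_map.mp hI
    intro h
    have := Ideal.relNorm_le_comap F[X] P
    rw [h, top_le_iff, Ideal.comap_eq_top_iff] at this
    exact (hs P hP).ne_top this) _ h3 h1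
  rw [Multiset.card_map] at h4
  refine h4.trans (natDegree_le_of_isIntegral _ h3 _ ?_)
  have h5 := Algebra.isIntegral_norm (RatFunc F) (mem_VV.mp hb)
  rw [map_mul, map_pow, tt, Algebra.norm_algebraMap, ← pow_mul] at h5
  rw [h2]
  exact h5

theorem res_BB [IsAlgClosed F] (P : Ideal (BB F N)) (hP : P.IsMaximal) (b : BB F N) :
    ∃ a : F, b - algebraMap F (BB F N) a ∈ P := by
  let := Ideal.Quotient.field P
  have : Algebra.FiniteType F (BB F N) := Algebra.FiniteType.trans (S := F[X]) inferInstance inferInstance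
  have : Module.Finite F (BB F N ⧸ P) := finite_of_finite_type_of_isJacobsonRing F _
  obtain ⟨a, ha⟩ := (IsAlgClosed.algebraMap_bijective_of_isIntegral (k := F) (K := BB F N ⧸ P)).2
    (Ideal.Quotient.mk P b)
  refine ⟨a, ?_⟩
  rw [← Ideal.Quotient.eq, ← ha]
  rfl

theorem sub_eq_alg (a : F) : algebraMap F[X] (BB F N) X - algebraMap F (BB F N) a =
    algebraMap F[X] (BB F N) (X - C a) := by
  rw [map_sub, IsScalarTower.algebraMap_apply F F[X] (BB F N)]
  rfl

theorem alg_inj_B : Function.Injective (algebraMap F[X] (BB F N)) :=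
  isTorsionFree_iff_algebraMap_injective.mp inferInstance

theorem sub_ne (a : F) : algebraMap F[X] (BB F N) X - algebraMap F (BB F N) a ≠ 0 := by
  rw [sub_eq_alg, map_ne_zero_iff _ (alg_inj_B F N)]
  exact X_sub_C_ne_zero a

theorem span_max (a : F) : (Ideal.span {(X - C a : F[X])}).IsMaximal :=
  PrincipalIdealRing.isMaximal_of_irreducible (irreducible_X_sub_C a)

theorem exists_max (a : F) : ∃ P : Ideal (BB F N), P.IsMaximal ∧
    algebraMap F[X] (BB F N) X - algebraMap F (BB F N) a ∈ P := by
  have := span_max F a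
  obtain ⟨Q, hQ, h⟩ := Ideal.exists_ideal_over_maximal_of_isIntegral (S := BB F N)
    (Ideal.span {(X - C a : F[X])})
    (by rw [(RingHom.injective_iff_ker_eq_bot _).mp (alg_inj_B F N)]; exact bot_le)
  refine ⟨Q, hQ, ?_⟩
  rw [sub_eq_alg, ← Ideal.mem_comap, h]
  exact Ideal.mem_span_singleton_self _

theorem exists_big : ∃ c : ℕ, ∀ n : ℕ, ∃ e : Fin (finrank (RatFunc F) N) × Fin n → BB F N,
    LinearIndependent F e ∧ ∀ i, e i ∈ VV F N (n + c) := by
  let b := Module.finBasisOfFinrankEq F[X] (BB F N) (IsIntegralClosure.rank F[X] (RatFunc F) N _)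
  choose c hc using fun i => exists_mem_VV (b i)
  refine ⟨Finset.univ.sup c, fun n => ⟨fun i => (X ^ (i.2 : ℕ) : F[X]) • b i.1, ?_, fun i => ?_⟩⟩
  · have h1 : LinearIndependent F (fun j : Fin n => (X ^ (j : ℕ) : F[X])) := by
      have := (basisMonomials F).linearIndependent.comp (fun j : Fin n => (j : ℕ)) Fin.val_injective
      convert this using 2
      simp [X_pow_eq_monomial]
    exact (linearIndependent_smul h1 b.linearIndependent).comp (Equiv.prodComm _ _)
      (Equiv.injective _)
  · beta_reduce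
    rw [Algebra.smul_def]
    refine VV_mono ?_ (VV_mul (algebraMap_mem_VV _) (hc i.1))
    rw [natDegree_X_pow]
    exact Nat.add_le_add i.2.2.le (Finset.le_sup (f := c) (Finset.mem_univ _))

/-- the curve -/
noncomputable def curve [IsAlgClosed F] : Curve F (BB F N) where
  V := VV F N
  r := finrank (RatFunc F) N
  c := (exists_big F N).choose
  r_pos := Module.finrank_pos
  mul_mem := VV_mul
  one_mem := by rw [mem_VV]; simpa using isIntegral_one
  zeros := zeros_VV F N
  res := res_BB F N
  P0 := (exists_max F N 0).choose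
  P0_max := (exists_max F N 0).choose_spec.1
  P0_ne := fun h => sub_ne F N 0 (by
    have := (exists_max F N 0).choose_spec.2
    rw [h] at this
    exact this)
  big := (exists_big F N).choose_spec

end Pool.Agent.H101Z.Weil
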