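import Pool.Agent.H101Z.Weil.Upper

set_option autoImplicit false

namespace Pool.Agent.H101Z.Weil

open Module Polynomial
open scoped Pointwise

variable {F B : Type} [Field F] [CommRing B] [IsDedekindDomain B] [Algebra F B] (C : Curve F B)

theorem exists_fixed_finset [IsAlgClosed F] (p : ℕ) [hp : Fact p.Prime] [CharP F p] (m : ℕ)
    (hm : m ≠ 0) : ∃ R : Finset F, R.card = p ^ m ∧ ∀ a ∈ R, a ^ p ^ m = a := by
  classical
  have hsep : (X ^ p ^ m - X : F[X]).Separable :=
    galois_poly_separable p (p ^ m) (dvd_pow_self p hm)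
  refine ⟨(X ^ p ^ m - X : F[X]).roots.toFinset, ?_, ?_⟩
  · rw [Multiset.toFinset_card_of_nodup (nodup_roots hsep),
      ← (IsAlgClosed.splits _).natDegree_eq_card_roots,
      FiniteField.X_pow_card_pow_sub_X_natDegree_eq F hm hp.out.one_lt]
  · intro a ha
    have := (mem_roots'.mp (Multiset.mem_toFinset.mp ha)).2
    simpa [sub_eq_zero] using this

namespace Curve

theorem lower [IsAlgClosed F] (p : ℕ) [hp : Fact p.Prime] [CharP F p] [CharP B p]
    (G : Type) [Group G] [Finite G] [MulSemiringAction G B] (x : B)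
    (hGV : ∀ (g : G) (m : ℕ), ∀ b ∈ C.V m, g • b ∈ C.V m)
    (hGF : ∀ (g : G) (a : F), g • algebraMap F B a = algebraMap F B a)
    (hGx : ∀ g : G, g • x = x)
    (hex : ∀ a : F, ∃ P : Ideal B, P.IsMaximal ∧ x - algebraMap F B a ∈ P)
    (hx0 : ∀ a : F, x - algebraMap F B a ≠ 0)
    (htrans : ∀ (a : F) (P P' : Ideal B), P.IsMaximal → P'.IsMaximal → x - algebraMap F B a ∈ P →
      x - algebraMap F B a ∈ P' → ∃ g : G, P' = g • P) (n₀ : ℕ) :
    ∃ m₀ : ℕ, ∀ m, m₀ ≤ m → ∀ (θ : B →+* B), Function.Injective θ →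
      (∀ m, ∀ b ∈ C.V m, θ b ∈ C.V m) → θ x = x →
      (∀ a : F, ∃ a' : F, θ (algebraMap F B a) = algebraMap F B a' ∧ a' ^ p ^ m = a) →
      ∀ (g₀ : G) (δ : B), δ ∈ C.V n₀ → δ ≠ 0 →
        ∃ P : Ideal B, P.IsMaximal ∧ δ ∉ P ∧ ∀ b, θ (g₀ • b) ^ p ^ m - b ∈ P := by
  classical
  cases nonempty_fintype G
  set N := Fintype.card G with hN
  have hNpos : 0 < N := Fintype.card_pos
  obtain ⟨m₀, hm₀⟩ := C.upper p (2 * N)
  refine ⟨m₀ + 2 * (C.r * n₀) + 1, fun m hm θ hθ hV hθx hθF g₀ δ hδ hδ0 => ?_⟩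
  have hQ : 2 * (C.r * n₀) < p ^ m :=
    lt_of_lt_of_le (Nat.lt_pow_self hp.out.one_lt) (Nat.pow_le_pow_right hp.out.pos (by omega))
  obtain ⟨R, hR, hRfix⟩ := exists_fixed_finset (F := F) p m (by omega)
  choose P₀ hP₀ hxP₀ using hex
  let fix : G → Ideal B → Prop := fun g P => ∀ b, θ (g • b) ^ p ^ m - b ∈ P
  let Orb : F → Finset (Ideal B) := fun a => Finset.univ.image fun g : G => g • P₀ a
  have hOrb : ∀ a, ∀ P ∈ Orb a, P.IsMaximal ∧ x - algebraMap F B a ∈ P := by
    intro a P hP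
    obtain ⟨g, _, rfl⟩ := Finset.mem_image.mp hP
    have := hP₀ a
    have h1 : x - algebraMap F B a ∈ g • P₀ a := by
      have := Ideal.smul_mem_pointwise_smul g _ _ (hxP₀ a)
      rwa [smul_sub, hGx, hGF] at this
    refine ⟨Ideal.IsPrime.isMaximal (this.isPrime.smul g) ?_, h1⟩
    intro h
    rw [h] at h1
    exact hx0 a h1
  have hdisj : ∀ a ∈ R, ∀ a' ∈ R, a ≠ a' → Disjoint (Orb a) (Orb a') := by
    intro a _ a' _ hne
    rw [Finset.disjoint_left]
    intro P h1 h2
    have h3 := P.sub_mem (hOrb a P h1).2 (hOrb a' P h2).2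
    have h4 : x - algebraMap F B a - (x - algebraMap F B a') = algebraMap F B (a' - a) := by
      rw [map_sub]; ring
    rw [h4] at h3
    exact (hOrb a P h1).1.ne_top (Ideal.eq_top_of_isUnit_mem _ h3
      ((IsUnit.mk0 _ (sub_ne_zero.mpr hne.symm)).map _))
  have hone : ∀ a ∈ R, N ≤ ∑ P ∈ Orb a, (Finset.univ.filter fun g => fix g P).card := by
    intro a ha
    rw [hN, ← Finset.card_univ, Finset.card_eq_sum_card_image (fun g : G => g • P₀ a)]
    refine Finset.sum_le_sum fun P hP => ?_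
    obtain ⟨hPm, hxP⟩ := hOrb a P hP
    obtain ⟨h₁, _, hh₁⟩ := Finset.mem_image.mp hP
    have hθa : θ (algebraMap F B a) = algebraMap F B a := by
      obtain ⟨a', h1, h2⟩ := hθF a
      rw [h1]
      congr 1
      have h3 : (a' - a) ^ p ^ m = 0 := by rw [sub_pow_char_pow, h2, hRfix a ha, sub_self]
      exact sub_eq_zero.mp (pow_eq_zero_iff (by omega) |>.mp h3)
    have hx' : x - algebraMap F B a ∈ P.comap θ := by
      rw [Ideal.mem_comap, map_sub, hθx, hθa]; exact hxP
    have hP'm : (P.comap θ).IsMaximal := by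
      have := hPm.isPrime
      refine Ideal.IsPrime.isMaximal (Ideal.comap_isPrime θ P) ?_
      intro h
      rw [h] at hx'
      exact hx0 a hx'
    obtain ⟨h₂, hh₂⟩ := htrans a P _ hPm hP'm hxP hx'
    refine Finset.card_le_card_of_injOn (fun g => h₂ * g * h₁⁻¹) ?_ ?_
    · intro g hg
      have hg' : g • P₀ a = P := (Finset.mem_filter.mp hg).2
      have h5 : (h₂ * g * h₁⁻¹) • P = P.comap θ := by
        rw [hh₂, mul_smul, mul_smul]
        congr 1
        rw [← hg']
        congr 1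
        rw [hg', ← hh₁, inv_smul_smul]
      refine Finset.mem_filter.mpr ⟨Finset.mem_univ _, fun b => ?_⟩
      obtain ⟨t, ht⟩ := C.res P hPm b
      obtain ⟨t', h6, h7⟩ := hθF t
      have h8 := Ideal.smul_mem_pointwise_smul (h₂ * g * h₁⁻¹) _ _ ht
      rw [h5, Ideal.mem_comap, smul_sub, hGF, map_sub, h6] at h8
      have h9 := P.pow_mem_of_mem h8 (p ^ m) (by omega)
      rw [sub_pow_char_pow, ← map_pow (algebraMap F B), h7] at h9
      have := P.sub_mem h9 ht
      simpa using this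
    · intro g _ g' _ h
      simpa using h
  let PP : Finset (Ideal B) := R.biUnion Orb
  have hPP : ∀ P ∈ PP, P.IsMaximal := by
    intro P hP
    obtain ⟨a, _, h⟩ := Finset.mem_biUnion.mp hP
    exact (hOrb a P h).1
  have htot : p ^ m * N ≤ ∑ g : G, (PP.filter fun P => fix g P).card := by
    have h1 : ∑ g : G, (PP.filter fun P => fix g P).card =
        ∑ P ∈ PP, (Finset.univ.filter fun g => fix g P).card := by
      simp_rw [Finset.card_filter]
      exact Finset.sum_comm
    rw [h1, Finset.sum_biUnion (fun a ha a' ha' h => hdisj a ha a' ha' h), ← hR]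
    have := Finset.card_nsmul_le_sum R _ N hone
    simpa using this
  have hup : ∀ g : G, 2 * N * (PP.filter fun P => fix g P).card ≤ (2 * N + 1) * p ^ m := by
    intro g
    refine hm₀ m (by omega) (θ.comp (MulSemiringAction.toRingHom G B g))
      (hθ.comp (MulAction.injective g)) (fun m b hb => hV m _ (hGV g m b hb)) _ fun P hP => ?_
    exact ⟨hPP P (Finset.mem_filter.mp hP).1, (Finset.mem_filter.mp hP).2⟩
  by_contra hcon
  push Not at hcon
  have hsmall : (PP.filter fun P => fix g₀ P).card ≤ C.r * n₀ := by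
    refine C.card_le_of_mem hδ hδ0 _ (fun P hP => hPP P (Finset.mem_filter.mp hP).1) fun P hP => ?_
    by_contra h
    obtain ⟨b, hb⟩ := hcon P (hPP P (Finset.mem_filter.mp hP).1) h
    exact hb ((Finset.mem_filter.mp hP).2 b)
  rw [← Finset.add_sum_erase _ _ (Finset.mem_univ g₀)] at htot
  have h2 : 2 * N * ∑ g ∈ Finset.univ.erase g₀, (PP.filter fun P => fix g P).card ≤
      (N - 1) * ((2 * N + 1) * p ^ m) := by
    rw [Finset.mul_sum]
    have := Finset.sum_le_card_nsmul (Finset.univ.erase g₀) _ _ (fun g _ => hup g)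
    rwa [Finset.card_erase_of_mem (Finset.mem_univ _), Finset.card_univ, smul_eq_mul] at this
  obtain ⟨M, hM⟩ : ∃ M, N = M + 1 := ⟨N - 1, by omega⟩
  rw [hM] at htot h2
  rw [Nat.add_sub_cancel] at h2
  set Q := p ^ m
  set s := (PP.filter fun P => fix g₀ P).card
  set T := ∑ g ∈ Finset.univ.erase g₀, (PP.filter fun P => fix g P).card
  have h3 : 2 * s < Q := by omega
  have h4 : 2 * (M + 1) * (Q * (M + 1)) ≤ 2 * (M + 1) * (s + T) := Nat.mul_le_mul_left _ htot
  have h5 : (M + 1) * (2 * s) ≤ (M + 1) * Q := Nat.mul_le_mul_left _ h3.le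
  nlinarith

end Curve

end Pool.Agent.H101Z.Weil
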