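import Mathlib

set_option autoImplicit false

namespace Pool.Agent.H101Z.Weil

open Module

/-- Abstract data of an affine curve with a degree filtration. -/
structure Curve (F B : Type) [Field F] [CommRing B] [IsDedekindDomain B] [Algebra F B] where
  V : ℕ → Submodule F B
  r : ℕ
  c : ℕ
  r_pos : 0 < r
  mul_mem : ∀ {m n : ℕ} {a b : B}, a ∈ V m → b ∈ V n → a * b ∈ V (m + n)
  one_mem : (1 : B) ∈ V 0
  zeros : ∀ (n : ℕ) (b : B), b ∈ V n → b ≠ 0 → ∀ s : Multiset (Ideal B),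
    (∀ P ∈ s, P.IsMaximal) → b ∈ s.prod → s.card ≤ r * n
  res : ∀ P : Ideal B, P.IsMaximal → ∀ b : B, ∃ a : F, b - algebraMap F B a ∈ P
  P0 : Ideal B
  P0_max : P0.IsMaximal
  P0_ne : P0 ≠ ⊥
  big : ∀ n : ℕ, ∃ e : Fin r × Fin n → B, LinearIndependent F e ∧ ∀ i, e i ∈ V (n + c)

variable {F B : Type} [Field F] [CommRing B] [IsDedekindDomain B] [Algebra F B] (C : Curve F B)

namespace Curve

theorem pow_mem {m : ℕ} {a : B} (ha : a ∈ C.V m) (k : ℕ) : a ^ k ∈ C.V (m * k) := by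
  induction k with
  | zero => simpa using C.one_mem
  | succ k ih => rw [pow_succ, Nat.mul_succ]; exact C.mul_mem ih ha

theorem le_of_mem_pow {n i : ℕ} {b : B} (hb : b ∈ C.V n) (h0 : b ≠ 0) (hi : b ∈ C.P0 ^ i) :
    i ≤ C.r * n := by
  have := C.zeros n b hb h0 (Multiset.replicate i C.P0)
    (fun P hP => by rw [Multiset.eq_of_mem_replicate hP]; exact C.P0_max)
    (by rwa [Multiset.prod_replicate])
  simpa using this

theorem exists_sub {i : ℕ} {a b : B} (ha : a ∈ C.P0 ^ i) (hb : b ∈ C.P0 ^ i)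
    (hb' : b ∉ C.P0 ^ (i + 1)) : ∃ t : F, a - t • b ∈ C.P0 ^ (i + 1) := by
  have := C.P0_max
  have h1 : C.P0 ^ (i + 1) ⊔ Ideal.span {b} = C.P0 ^ i := by
    refine Ideal.eq_prime_pow_of_succ_lt_of_le C.P0_ne (lt_of_le_of_ne le_sup_left ?_)
      (sup_le (Ideal.pow_le_pow_right (Nat.le_succ i)) ((Ideal.span_singleton_le_iff_mem _).mpr hb))
    intro h
    apply hb'
    rw [h]
    exact Ideal.mem_sup_right (Ideal.mem_span_singleton_self b)
  rw [← h1] at ha
  obtain ⟨y, hy, z, hz, rfl⟩ := Submodule.mem_sup.mp ha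
  obtain ⟨β, rfl⟩ := Ideal.mem_span_singleton'.mp hz
  obtain ⟨t, ht⟩ := C.res _ C.P0_max β
  refine ⟨t, ?_⟩
  have : y + β * b - t • b = y + b * (β - algebraMap F B t) := by
    rw [Algebra.smul_def]; ring
  rw [this]
  refine Ideal.add_mem _ hy ?_
  rw [pow_succ]
  exact Ideal.mul_mem_mul hb ht

theorem exists_basis (n : ℕ) : ∃ (S : Finset ℕ) (e : ℕ → B), S ⊆ Finset.range (C.r * n + 1) ∧
    (∀ i ∈ S, e i ∈ C.V n ∧ e i ∈ C.P0 ^ i ∧ e i ∉ C.P0 ^ (i + 1)) ∧
    C.V n ≤ Submodule.span F (e '' S) := by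
  classical
  let p : ℕ → Prop := fun i => ∃ b, b ∈ C.V n ∧ b ∈ C.P0 ^ i ∧ b ∉ C.P0 ^ (i + 1)
  let e : ℕ → B := fun i => if h : p i then h.choose else 0
  refine ⟨(Finset.range (C.r * n + 1)).filter p, e, Finset.filter_subset _ _, ?_, ?_⟩
  · intro i hi
    have h := (Finset.mem_filter.mp hi).2
    simp only [e, dif_pos h]
    exact h.choose_spec
  · have key : ∀ k i, i + k = C.r * n + 1 → ∀ a ∈ C.V n, a ∈ C.P0 ^ i →
        a ∈ Submodule.span F (e '' ((Finset.range (C.r * n + 1)).filter p : Finset ℕ)) := by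
      intro k
      induction k with
      | zero =>
        intro i hi a ha hai
        have : a = 0 := by
          by_contra h0
          have := C.le_of_mem_pow ha h0 hai
          omega
        rw [this]; exact Submodule.zero_mem _
      | succ k ih =>
        intro i hi a ha hai
        by_cases h : a ∈ C.P0 ^ (i + 1)
        · exact ih (i + 1) (by omega) a ha h
        · have hp : p i := ⟨a, ha, hai, h⟩
          have he : e i ∈ C.V n ∧ e i ∈ C.P0 ^ i ∧ e i ∉ C.P0 ^ (i + 1) := by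
            simp only [e, dif_pos hp]
            exact hp.choose_spec
          obtain ⟨t, ht⟩ := C.exists_sub hai he.2.1 he.2.2
          have h1 := ih (i + 1) (by omega) _ (Submodule.sub_mem _ ha (Submodule.smul_mem _ t he.1)) ht
          have h2 : e i ∈ Submodule.span F
              (e '' ((Finset.range (C.r * n + 1)).filter p : Finset ℕ)) :=
            Submodule.subset_span ⟨i, by
              simp only [Finset.coe_filter, Finset.mem_range, Set.mem_ofPred_eq]
              exact ⟨by omega, hp⟩, rfl⟩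
          have := Submodule.add_mem _ h1 (Submodule.smul_mem _ t h2)
          simpa using this
    intro a ha
    exact key (C.r * n + 1) 0 (by omega) a ha (by simp)

omit [IsDedekindDomain B] in
theorem finrank_le_of_span {W : Submodule F B} {S : Finset ℕ} {e : ℕ → B}
    (h : W ≤ Submodule.span F (e '' S)) : FiniteDimensional F W ∧ finrank F W ≤ S.card := by
  classical
  have hfin : FiniteDimensional F (Submodule.span F (e '' S)) :=
    FiniteDimensional.span_of_finite F (S.finite_toSet.image e)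
  refine ⟨Submodule.finiteDimensional_of_le h, (Submodule.finrank_mono h).trans ?_⟩
  rw [← Finset.coe_image]
  exact (finrank_span_finset_le_card _).trans Finset.card_image_le

instance (n : ℕ) : FiniteDimensional F (C.V n) := by
  obtain ⟨S, e, _, _, h⟩ := C.exists_basis n
  exact (finrank_le_of_span h).1

theorem finrank_le (n : ℕ) : finrank F (C.V n) ≤ C.r * n + 1 := by
  obtain ⟨S, e, h1, _, h⟩ := C.exists_basis n
  exact (finrank_le_of_span h).2.trans ((Finset.card_le_card h1).trans (by simp))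

theorem le_finrank (n : ℕ) : C.r * n ≤ finrank F (C.V (n + C.c)) := by
  obtain ⟨e, he, hV⟩ := C.big n
  have h1 : LinearIndependent F (fun i => (⟨e i, hV i⟩ : C.V (n + C.c))) :=
    LinearIndependent.of_comp (C.V (n + C.c)).subtype he
  simpa using h1.fintype_card_le_finrank

theorem val_iff (b : B) (i : ℕ) : emultiplicity C.P0 (Ideal.span {b}) = i ↔
    b ∈ C.P0 ^ i ∧ b ∉ C.P0 ^ (i + 1) := by
  rw [emultiplicity_eq_coe, Ideal.dvd_span_singleton, Ideal.dvd_span_singleton]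

theorem prime_P0 : Prime C.P0 := Ideal.prime_of_isPrime C.P0_ne C.P0_max.isPrime

theorem exists_val {b : B} (hb : b ≠ 0) : ∃ i : ℕ, emultiplicity C.P0 (Ideal.span {b}) = i := by
  have : FiniteMultiplicity C.P0 (Ideal.span {b}) :=
    FiniteMultiplicity.of_not_isUnit C.prime_P0.not_isUnit (by simpa using hb)
  exact ⟨_, this.emultiplicity_eq_multiplicity⟩

theorem sum_ne_zero (S : Finset ℕ) (e u : ℕ → B) (Q : ℕ) (hS : ∀ i ∈ S, i < Q)
    (he : ∀ i ∈ S, e i ∈ C.P0 ^ i ∧ e i ∉ C.P0 ^ (i + 1)) (hu : ∃ i ∈ S, u i ≠ 0) :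
    ∑ i ∈ S, e i * u i ^ Q ≠ 0 := by
  classical
  have hv : ∀ i, ∃ v : ℕ, u i ≠ 0 → emultiplicity C.P0 (Ideal.span {u i}) = v := by
    intro i
    by_cases h : u i = 0
    · exact ⟨0, fun h' => absurd h h'⟩
    · obtain ⟨v, hv⟩ := C.exists_val h
      exact ⟨v, fun _ => hv⟩
  choose v hv using hv
  let ν : ℕ → ℕ := fun i => i + Q * v i
  have hν : ∀ i ∈ S, u i ≠ 0 →
      (e i * u i ^ Q ∈ C.P0 ^ ν i ∧ e i * u i ^ Q ∉ C.P0 ^ (ν i + 1)) ∧ ν i % Q = i := by
    intro i hi h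
    simp only [ν]
    constructor
    · rw [← C.val_iff, ← Ideal.span_singleton_mul_span_singleton, ← Ideal.span_singleton_pow,
        emultiplicity_mul C.prime_P0, emultiplicity_pow C.prime_P0, (C.val_iff _ _).mpr (he i hi),
        hv i h]
      push_cast
      rfl
    · rw [Nat.add_mul_mod_self_left, Nat.mod_eq_of_lt (hS i hi)]
  obtain ⟨j, hj, hmin⟩ := Finset.exists_min_image (S.filter fun i => u i ≠ 0) ν
    (by obtain ⟨i, hi, h⟩ := hu; exact ⟨i, Finset.mem_filter.mpr ⟨hi, h⟩⟩)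
  obtain ⟨hjS, hju⟩ := Finset.mem_filter.mp hj
  intro h0
  apply (hν j hjS hju).1.2
  rw [← Finset.add_sum_erase S _ hjS] at h0
  rw [eq_neg_of_add_eq_zero_left h0]
  refine Submodule.neg_mem _ (Ideal.sum_mem _ fun i hi => ?_)
  obtain ⟨hij, hiS⟩ := Finset.mem_erase.mp hi
  by_cases h : u i = 0
  · have hQ : Q ≠ 0 := by have := hS i hiS; omega
    rw [h, zero_pow hQ, mul_zero]; exact Submodule.zero_mem _
  · have h1 := hmin i (Finset.mem_filter.mpr ⟨hiS, h⟩)
    have h2 : ν i ≠ ν j := fun h' => hij (by rw [← (hν i hiS h).2, h', (hν j hjS hju).2])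
    exact Ideal.pow_le_pow_right (by omega) (hν i hiS h).1.1

theorem card_le_of_mem {n : ℕ} {b : B} (hb : b ∈ C.V n) (h0 : b ≠ 0) (s : Finset (Ideal B))
    (hs : ∀ P ∈ s, P.IsMaximal) (hbs : ∀ P ∈ s, b ∈ P) : s.card ≤ C.r * n := by
  refine C.zeros n b hb h0 s.val hs ?_
  have : s.val.prod = ∏ P ∈ s, P := by simp
  rw [this, Ideal.prod_eq_iInf_of_pairwise_isCoprime]
  · simpa using hbs
  · intro P hP P' hP' hne
    have := hs P hP
    have := hs P' hP'
    exact Ideal.isCoprime_of_isMaximal hne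

/-- The auxiliary function. -/
theorem aux (p : ℕ) [Fact p.Prime] [CharP B p] (μ ν a n : ℕ) (h1 : C.r * (a + C.c) < p ^ ν)
    (h2 : C.r * ((a + C.c) * p ^ μ + (n + C.c)) + 1 < (C.r * a) * (C.r * n))
    (θ : B →+* B) (hθ : Function.Injective θ) (hV : ∀ m, ∀ b ∈ C.V m, θ b ∈ C.V m)
    (s : Finset (Ideal B)) (hs : ∀ P ∈ s, P.IsMaximal ∧ ∀ b, θ b ^ p ^ (ν + μ) - b ∈ P) :
    s.card ≤ C.r * ((a + C.c) + (n + C.c) * p ^ ν) := by
  classical
  obtain ⟨S, e, hS, he, hspan⟩ := C.exists_basis (a + C.c)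
  have hcard : C.r * a ≤ S.card := (C.le_finrank a).trans (finrank_le_of_span hspan).2
  let Φ₀ : (S → C.V (n + C.c)) →ₗ[F] B :=
    ∑ j : S, (LinearMap.mulLeft F (e j ^ p ^ μ)) ∘ₗ (C.V (n + C.c)).subtype ∘ₗ LinearMap.proj j
  have hΦ₀ : ∀ w, Φ₀ w = ∑ j : S, e j ^ p ^ μ * (w j : B) := by
    intro w
    simp [Φ₀, LinearMap.sum_apply]
  let Φ : (S → C.V (n + C.c)) →ₗ[F] C.V ((a + C.c) * p ^ μ + (n + C.c)) :=
    Φ₀.codRestrict _ (fun w => by
      rw [hΦ₀]
      exact Submodule.sum_mem _ fun j _ => C.mul_mem (C.pow_mem (he j j.2).1 _) (w j).2)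
  have hker : LinearMap.ker Φ ≠ ⊥ := by
    apply LinearMap.ker_ne_bot_of_finrank_lt
    rw [Module.finrank_pi_fintype, Finset.sum_const, Finset.card_univ, Fintype.card_coe, smul_eq_mul]
    exact lt_of_le_of_lt (C.finrank_le _) (lt_of_lt_of_le h2 (Nat.mul_le_mul hcard (C.le_finrank n)))
  obtain ⟨w, hw, hw0⟩ := (Submodule.ne_bot_iff _).mp hker
  have hw' : ∑ j : S, e j ^ p ^ μ * (w j : B) = 0 := by
    rw [← hΦ₀]
    exact congrArg Subtype.val (LinearMap.mem_ker.mp hw)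
  let u : ℕ → B := fun j => if h : j ∈ S then θ (w ⟨j, h⟩) else 0
  have hu : ∀ j : S, u j = θ (w j) := fun j => dif_pos j.2
  have hne : ∑ j ∈ S, e j * u j ^ p ^ ν ≠ 0 := by
    refine C.sum_ne_zero S e u _ (fun i hi => ?_) (fun i hi => (he i hi).2) ?_
    · have := Finset.mem_range.mp (hS hi)
      omega
    · by_contra hcon
      push Not at hcon
      apply hw0
      funext j
      apply Subtype.ext
      apply hθ
      rw [← hu, hcon j j.2]
      simp
  refine C.card_le_of_mem ?_ hne s (fun P hP => (hs P hP).1) (fun P hP => ?_)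
  · refine Submodule.sum_mem _ fun j hj => C.mul_mem (he j hj).1 (C.pow_mem ?_ _)
    rw [hu ⟨j, hj⟩]
    exact hV _ _ (w _).2
  · apply (hs P hP).1.isPrime.mem_of_pow_mem (p ^ μ)
    rw [sum_pow_char_pow, ← Finset.sum_coe_sort, ← sub_zero (∑ _, _), ← hw',
      ← Finset.sum_sub_distrib]
    refine Ideal.sum_mem _ fun j _ => ?_
    rw [mul_pow, ← mul_sub, ← pow_mul, ← pow_add, hu]
    exact Ideal.mul_mem_left _ _ ((hs P hP).2 _)

/-- Bombieri's upper bound in a weak form. -/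
theorem upper (p : ℕ) [hp : Fact p.Prime] [CharP B p] (k : ℕ) : ∃ m₀ : ℕ, ∀ m, m₀ ≤ m →
    ∀ (θ : B →+* B), Function.Injective θ → (∀ m, ∀ b ∈ C.V m, θ b ∈ C.V m) →
    ∀ s : Finset (Ideal B), (∀ P ∈ s, P.IsMaximal ∧ ∀ b, θ b ^ p ^ m - b ∈ P) →
      k * s.card ≤ (k + 1) * p ^ m := by
  have hp1 : 1 < p := hp.out.one_lt
  have hr := C.r_pos
  set r := C.r with hr'
  set c := C.c with hc'
  let μ := k * r * (c + 1)
  have hμ : k * r * (c + 1) < p ^ μ := Nat.lt_pow_self hp1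
  set ρ := p ^ μ with hρ
  let n := ρ / r + 1
  have hn1 : ρ + 1 ≤ r * n := by
    have := Nat.lt_mul_div_succ ρ hr
    exact this
  have hn2 : r * n ≤ ρ + r := by
    have := Nat.mul_div_le ρ r
    simp only [n, Nat.mul_add]
    omega
  let a := c * ρ + c + n + 2
  let ν₀ := (k + 1) * r * (a + c)
  refine ⟨ν₀ + μ, fun m hm θ hθ hV s hs => ?_⟩
  obtain ⟨ν, rfl⟩ : ∃ ν, m = ν + μ := ⟨m - μ, by omega⟩
  have hν : (k + 1) * r * (a + c) < p ^ ν :=
    lt_of_lt_of_le (Nat.lt_pow_self hp1) (Nat.pow_le_pow_right hp1.le (by omega))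
  have key := C.aux p μ ν a n (by
    rw [← hr', ← hc']
    have h9 : (k + 1) * r * (a + c) = k * (r * (a + c)) + r * (a + c) := by ring
    omega) (by
    rw [← hr', ← hc', ← hρ]
    have h3 : (a + c) * ρ + (n + c) + 2 ≤ a * (r * n) := by
      have : a * (ρ + 1) ≤ a * (r * n) := Nat.mul_le_mul_left _ hn1
      have h4 : a * (ρ + 1) = (a + c) * ρ + (n + c) + 2 := by simp only [a]; ring
      omega
    have h5 : r * ((a + c) * ρ + (n + c) + 2) ≤ r * (a * (r * n)) := Nat.mul_le_mul_left _ h3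
    nlinarith) θ hθ hV s hs
  rw [← hr', ← hc'] at key
  rw [pow_add, ← hρ]
  set Q := p ^ ν
  have h6 : k * (r * (n + c)) + 1 ≤ (k + 1) * ρ := by
    have : k * (r * n) ≤ k * (ρ + r) := Nat.mul_le_mul_left _ hn2
    nlinarith
  have h7 : (k * (r * (n + c)) + 1) * Q ≤ (k + 1) * ρ * Q := Nat.mul_le_mul_right _ h6
  have h8 : k * s.card ≤ k * (r * (a + c + (n + c) * Q)) := Nat.mul_le_mul_left _ key
  nlinarith

end Curve

end Pool.Agent.H101Z.Weil
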